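import Mathlib
set_option autoImplicit false

namespace Pool.Agent.Helper521.OrderedTransversals

/-! ### Definitions of the statement

Here `n = d - 1`; the sets live in `ℝ^d = (Fin (n + 1) → ℝ)`, the `(d-1)`-ordering is a family `p`
of points of `ℝ^(d-1) = (Fin n → ℝ)`. -/

/-- The orientation of `n + 1` points of `ℝ^n`: the sign of the determinant with rows `(1, x i)`. -/
noncomputable def orient {n : ℕ} (x : Fin (n + 1) → Fin n → ℝ) : SignType :=
  SignType.sign (Matrix.det (Matrix.of fun i => (Fin.cons 1 (x i) : Fin (n + 1) → ℝ)))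

/-- The points `x i` and `y i`, `i ∈ B`, of `ℝ^n` have the same order type. -/
def SameOrderType {n : ℕ} {ι : Type} (B : Finset ι) (x y : ι → Fin n → ℝ) : Prop :=
  ∀ t : Fin (n + 1) → ι, (∀ k, t k ∈ B) → orient (x ∘ t) = orient (y ∘ t)

/-- Some oriented hyperplane meets the sets `a i`, `i ∈ B`, consistently with the ordering `p`.
An oriented hyperplane with an orientation preserving affine coordinate system is an injective
affine map `φ : ℝ^n → ℝ^(n+1)`; the points `φ (y i) ∈ a i` of the hyperplane have coordinates `y i`,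
and these have the same order type as the points `p i`. -/
def MetConsistently {n : ℕ} {ι : Type} (a : ι → Set (Fin (n + 1) → ℝ)) (p : ι → Fin n → ℝ)
    (B : Finset ι) : Prop :=
  ∃ (φ : (Fin n → ℝ) →ᵃ[ℝ] (Fin (n + 1) → ℝ)) (y : ι → Fin n → ℝ), Function.Injective φ ∧
    (∀ i ∈ B, φ (y i) ∈ a i) ∧ SameOrderType B y p

/-- Pairwise disjoint nonempty compact convex sets in `ℝ^(n+1)`. -/
def IsFamily {n : ℕ} {ι : Type} (a : ι → Set (Fin (n + 1) → ℝ)) : Prop :=
  (∀ i, IsCompact (a i) ∧ Convex ℝ (a i) ∧ (a i).Nonempty) ∧ ∀ i j, i ≠ j → Disjoint (a i) (a j)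

/-- No `n + 1` of the points `p i` lie on a common hyperplane of `ℝ^n`. -/
def GeneralPosition {n : ℕ} {ι : Type} (p : ι → Fin n → ℝ) : Prop :=
  ∀ t : Fin (n + 1) → ι, Function.Injective t → orient (p ∘ t) ≠ 0

/-- `h` has the defining property of `h(d)`, `d = n + 1`, for all finite families and all orderings
`p` in general position. -/
def HellyNumber (n h : ℕ) : Prop :=
  ∀ (ι : Type) [Fintype ι] (a : ι → Set (Fin (n + 1) → ℝ)) (p : ι → Fin n → ℝ),
    IsFamily a → GeneralPosition p →
      (∀ B : Finset ι, B.card ≤ h → MetConsistently a p B) → MetConsistently a p Finset.univ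

/-! ### Determinants -/

variable {ι : Type} [Fintype ι] [DecidableEq ι]

/-- determinant of homogeneous vectors -/
noncomputable def D {n : ℕ} (v : Fin (n + 1) → Fin (n + 1) → ℝ) : ℝ := Matrix.detRowAlternating v

lemma D_eq {n : ℕ} (v : Fin (n + 1) → Fin (n + 1) → ℝ) : D v = Matrix.det (Matrix.of v) := rfl

/-- Existence of a configuration in which exactly the prescribed tuples are degenerate. -/
theorem base {n M : ℕ} (hn : 2 ≤ n) (T : Fin M → Finset ι) (w : Fin M → ι)
    (hT : ∀ k, (T k).card = n + 1)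
    (hTT : ∀ j k, j ≠ k → (T j ∩ T k).card ≤ 1)
    (hw : ∀ k, w k ∈ T k) (hww : ∀ j k, j ≠ k → w k ∉ T j) :
    ∃ v : ι → Fin (n + 1) → ℝ, (∀ i, v i 0 = 1) ∧ Function.Injective v ∧
      ∀ t : Fin (n + 1) → ι, Function.Injective t →
        (D (v ∘ t) = 0 ↔ ∃ k, Finset.univ.image t = T k) := by
  classical
  -- initial configuration: the moment curve
  suffices h : ∀ s : ℕ, s ≤ M → ∃ v : ι → Fin (n + 1) → ℝ, (∀ i, v i 0 = 1) ∧
      Function.Injective v ∧ ∀ t : Fin (n + 1) → ι, Function.Injective t →
        (D (v ∘ t) = 0 ↔ ∃ k : Fin M, k.val < s ∧ Finset.univ.image t = T k) by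
    obtain ⟨v, h1, h2, h3⟩ := h M le_rfl
    refine ⟨v, h1, h2, fun t ht => ?_⟩
    rw [h3 t ht]
    constructor
    · rintro ⟨k, -, hk⟩
      exact ⟨k, hk⟩
    · rintro ⟨k, hk⟩
      exact ⟨k, k.2, hk⟩
  intro s
  induction s with
  | zero =>
    intro _
    -- moment curve
    let e := Fintype.equivFin ι
    refine ⟨fun i j => ((e i : ℕ) : ℝ) ^ (j : ℕ), fun i => by simp, ?_, ?_⟩
    · intro i j hij
      have h1 := congrFun hij ⟨1, by omega⟩
      simp only [pow_one] at h1
      have h2 : ((e i : ℕ)) = (e j : ℕ) := by exact_mod_cast h1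
      exact e.injective (Fin.ext h2)
    · intro t ht
      constructor
      · intro h0
        exfalso
        have : D ((fun i (j : Fin (n + 1)) => ((e i : ℕ) : ℝ) ^ (j : ℕ)) ∘ t) =
            Matrix.det (Matrix.vandermonde fun i => ((e (t i) : ℕ) : ℝ)) := by
          rw [D_eq]
          rfl
        rw [this, Matrix.det_vandermonde_eq_zero_iff] at h0
        obtain ⟨i, j, hij, hne⟩ := h0
        apply hne
        have : (e (t i) : ℕ) = (e (t j) : ℕ) := by exact_mod_cast hij
        exact ht (e.injective (Fin.ext this))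
      · rintro ⟨k, hk, -⟩
        omega
  | succ s ih =>
    intro hs
    obtain ⟨v, hv0, hvinj, hv⟩ := ih (by omega)
    let K : Fin M := ⟨s, by omega⟩
    let B : Finset ι := (T K).erase (w K)
    have hBcard : B.card = n := by
      rw [Finset.card_erase_of_mem (hw K), hT K]
      rfl
    -- linear forms in the coefficients
    let f : (ι → ℝ) →ₗ[ℝ] (Fin (n + 1) → ℝ) :=
      ∑ i ∈ B, (LinearMap.toSpanSingleton ℝ (Fin (n + 1) → ℝ) (v i)).comp (LinearMap.proj i)
    have hf : ∀ lam : ι → ℝ, f lam = ∑ i ∈ B, lam i • v i := by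
      intro lam
      simp [f, LinearMap.sum_apply]
    -- determinant with one row replaced
    let g : (Fin (n + 1) → ι) → Fin (n + 1) → ((Fin (n + 1) → ℝ) →ₗ[ℝ] ℝ) := fun t a =>
      (Matrix.detRowAlternating (R := ℝ) (n := Fin (n + 1))).toMultilinearMap.toLinearMap (v ∘ t) a
    have hg : ∀ t a x, g t a x = D (Function.update (v ∘ t) a x) := fun t a x => rfl
    have hfs : ∀ i ∈ B, f (Pi.single i 1) = v i := by
      intro i hi
      rw [hf, Finset.sum_eq_single i]
      · simp
      · intro b _ hb
        simp [hb]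
      · intro h
        exact absurd hi h
    have hupd : ∀ (t : Fin (n + 1) → ι) (a : Fin (n + 1)) (i : ι),
        Function.update (v ∘ t) a (v i) = v ∘ Function.update t a i := by
      intro t a i
      rw [Function.comp_update]
    have hB2 : ∀ j : ι, ∃ i ∈ B, v i ≠ v j := by
      intro j
      by_contra hcon
      push Not at hcon
      have h1 : B.card ≤ 1 := by
        rw [Finset.card_le_one]
        intro x hx y hy
        exact hvinj ((hcon x hx).trans (hcon y hy).symm)
      omega
    -- the family of forms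
    let J := Unit ⊕ ({q : (Fin (n + 1) → ι) × Fin (n + 1) // Function.Injective q.1 ∧
      q.1 q.2 = w K ∧ Finset.univ.image q.1 ≠ T K} ⊕ (ι × Unit))
    have hc : ∀ j : ι, ∃ c : Fin (n + 1), ∃ i ∈ B, v i c ≠ v j c := by
      intro j
      obtain ⟨i, hi, hne⟩ := hB2 j
      obtain ⟨c, hc⟩ := Function.ne_iff.1 hne
      exact ⟨c, i, hi, hc⟩
    choose c hc using hc
    let F : J → Module.Dual ℝ (ι → ℝ) := fun q => match q with
      | Sum.inl _ => ∑ i ∈ B, LinearMap.proj i
      | Sum.inr (Sum.inl q) => (g q.1.1 q.1.2).comp f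
      | Sum.inr (Sum.inr q) => ∑ i ∈ B, (v i (c q.1) - v q.1 (c q.1)) • LinearMap.proj i
    obtain ⟨lam, hlam⟩ := Module.Dual.exists_forall_ne_zero_of_forall_exists F (by
      rintro (_ | ⟨⟨⟨t, a⟩, ht, hta, htT⟩⟩ | ⟨j, _⟩)
      · have hBne : B.Nonempty := Finset.card_pos.1 (by omega)
        obtain ⟨i, hi⟩ := hBne
        refine ⟨Pi.single i 1, ?_⟩
        simp only [F, LinearMap.sum_apply, LinearMap.proj_apply]
        rw [Finset.sum_eq_single i]
        · simp
        · intro b _ hb
          simp [hb]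
        · intro h
          exact absurd hi h
      · -- main case
        simp only at ht hta htT
        -- it suffices to find `i ∈ B` outside the range with nonspecial tuple
        suffices h : ∃ i ∈ B, i ∉ Finset.univ.image t ∧
            ∀ k : Fin M, k.val < s → Finset.univ.image (Function.update t a i) ≠ T k by
          obtain ⟨i, hi, hit, hk⟩ := h
          refine ⟨Pi.single i 1, ?_⟩
          simp only [F, LinearMap.comp_apply]
          rw [hfs i hi, hg, hupd]
          have hinj : Function.Injective (Function.update t a i) := by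
            intro x y hxy
            have hit' : ∀ x, t x ≠ i := by
              intro x hx
              exact hit (Finset.mem_image.2 ⟨x, Finset.mem_univ _, hx⟩)
            by_cases hx : x = a
            · by_cases hy : y = a
              · rw [hx, hy]
              · rw [hx, Function.update_self, Function.update_of_ne hy] at hxy
                exact absurd hxy.symm (hit' y)
            · by_cases hy : y = a
              · rw [hy, Function.update_self, Function.update_of_ne hx] at hxy
                exact absurd hxy (hit' x)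
              · rw [Function.update_of_ne hx, Function.update_of_ne hy] at hxy
                exact ht hxy
          intro h0
          obtain ⟨k, hk1, hk2⟩ := (hv _ hinj).1 h0
          exact hk k hk1 hk2
        -- `y` = the other points
        set Y : Finset ι := (Finset.univ.image t).erase (w K) with hY
        have himg : (Finset.univ.image t).card = n + 1 := by
          rw [Finset.card_image_of_injective _ ht]
          simp
        have hwt : w K ∈ Finset.univ.image t := Finset.mem_image.2 ⟨a, Finset.mem_univ _, hta⟩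
        have hYcard : Y.card = n := by
          rw [hY, Finset.card_erase_of_mem hwt, himg]
          rfl
        have hupdim : ∀ i, Finset.univ.image (Function.update t a i) = insert i Y := by
          intro i
          ext z
          simp only [Finset.mem_image, Finset.mem_univ, true_and, Finset.mem_insert, hY,
            Finset.mem_erase]
          constructor
          · rintro ⟨x, hx⟩
            by_cases hxa : x = a
            · left
              rw [hxa, Function.update_self] at hx
              exact hx.symm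
            · right
              rw [Function.update_of_ne hxa] at hx
              refine ⟨?_, x, hx⟩
              rintro rfl
              exact hxa (ht (hx.trans hta.symm))
          · rintro (hz | ⟨hz1, x, hx⟩)
            · exact ⟨a, by rw [Function.update_self, hz]⟩
            · refine ⟨x, ?_⟩
              rw [Function.update_of_ne]
              · exact hx
              · rintro rfl
                exact hz1 (hx.symm.trans hta)
        have hYB : Y ≠ B := by
          intro h
          apply htT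
          rw [← Finset.insert_erase hwt, ← hY, h]
          exact Finset.insert_erase (hw K)
        have hwKB : w K ∉ B := Finset.notMem_erase _ _
        have hnotin : ∀ i ∈ B, i ∉ Y → i ∉ Finset.univ.image t := by
          intro i hiB hiY him
          apply hiY
          rw [hY, Finset.mem_erase]
          refine ⟨?_, him⟩
          rintro rfl
          exact hwKB hiB
        obtain ⟨i, hiB, hiY⟩ : ∃ i ∈ B, i ∉ Y := by
          by_contra hcon
          push Not at hcon
          apply hYB
          exact (Finset.eq_of_subset_of_card_le hcon (by rw [hYcard, hBcard])).symm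
        by_cases hsp : ∀ k : Fin M, k.val < s → Finset.univ.image (Function.update t a i) ≠ T k
        · exact ⟨i, hiB, hnotin i hiB hiY, hsp⟩
        · push Not at hsp
          obtain ⟨k, hk, hkT⟩ := hsp
          rw [hupdim] at hkT
          have hkK : k ≠ K := by
            rintro rfl
            simp [K] at hk
          have hYk : Y ⊆ T k := by
            rw [← hkT]
            exact Finset.subset_insert _ _
          have hik : i ∈ T k := by
            rw [← hkT]
            exact Finset.mem_insert_self _ _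
          have hiK : i ∈ T K := Finset.mem_of_mem_erase hiB
          have honly : ∀ z ∈ T K, z ∈ T k → z = i := by
            intro z hz1 hz2
            have h1 := hTT k K hkK
            rw [Finset.card_le_one] at h1
            exact h1 z (Finset.mem_inter.2 ⟨hz2, hz1⟩) i (Finset.mem_inter.2 ⟨hik, hiK⟩)
          obtain ⟨i', hi'B, hi'i⟩ : ∃ i' ∈ B, i' ≠ i := by
            by_contra hcon
            push Not at hcon
            have : B ⊆ {i} := fun z hz => Finset.mem_singleton.2 (hcon z hz)
            have := Finset.card_le_card this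
            rw [hBcard, Finset.card_singleton] at this
            omega
          have hi'K : i' ∈ T K := Finset.mem_of_mem_erase hi'B
          have hi'k : i' ∉ T k := fun h => hi'i (honly i' hi'K h)
          have hi'Y : i' ∉ Y := fun h => hi'k (hYk h)
          refine ⟨i', hi'B, hnotin i' hi'B hi'Y, ?_⟩
          intro l hl hlT
          rw [hupdim] at hlT
          by_cases hlk : l = k
          · subst hlk
            apply hi'k
            rw [← hlT]
            exact Finset.mem_insert_self _ _
          · have h1 := hTT l k hlk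
            have h2 : Y ⊆ T l ∩ T k := by
              intro z hz
              refine Finset.mem_inter.2 ⟨?_, hYk hz⟩
              rw [← hlT]
              exact Finset.mem_insert_of_mem hz
            have := Finset.card_le_card h2
            omega
      · obtain ⟨i, hi, hne⟩ := hc j
        refine ⟨Pi.single i 1, ?_⟩
        simp only [F, LinearMap.sum_apply, LinearMap.smul_apply, LinearMap.proj_apply]
        rw [Finset.sum_eq_single i]
        · simpa using sub_ne_zero.2 hne
        · intro b _ hb
          simp [hb]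
        · intro h
          exact absurd hi h)
    -- normalise
    have hsum : ∑ i ∈ B, lam i ≠ 0 := by
      have := hlam (Sum.inl ())
      simpa [F, LinearMap.sum_apply] using this
    set σ := ∑ i ∈ B, lam i with hσ
    let new : Fin (n + 1) → ℝ := σ⁻¹ • f lam
    have hwKB : w K ∉ B := Finset.notMem_erase _ _
    refine ⟨Function.update v (w K) new, ?_, ?_, ?_⟩
    · intro i
      by_cases hi : i = w K
      · subst hi
        rw [Function.update_self]
        simp only [new, Pi.smul_apply, hf, Finset.sum_apply, hv0, smul_eq_mul, mul_one]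
        rw [← hσ]
        exact inv_mul_cancel₀ hsum
      · rw [Function.update_of_ne hi]
        exact hv0 i
    · -- injectivity
      have hne : ∀ j, new ≠ v j := by
        intro j hj
        have h1 := hlam (Sum.inr (Sum.inr (j, ())))
        apply h1
        simp only [F, LinearMap.sum_apply, LinearMap.smul_apply, LinearMap.proj_apply,
          smul_eq_mul]
        have h2 := congrFun hj (c j)
        simp only [new, Pi.smul_apply, hf, Finset.sum_apply, smul_eq_mul] at h2
        have h3 : ∑ i ∈ B, lam i * v i (c j) = σ * v j (c j) := by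
          rw [← h2, ← mul_assoc, mul_inv_cancel₀ hsum, one_mul]
        calc ∑ i ∈ B, (v i (c j) - v j (c j)) * lam i
            = ∑ i ∈ B, lam i * v i (c j) - σ * v j (c j) := by
              rw [hσ, Finset.sum_mul, ← Finset.sum_sub_distrib]
              exact Finset.sum_congr rfl fun i _ => by ring
          _ = 0 := by rw [h3, sub_self]
      intro i j hij
      by_cases hi : i = w K
      · by_cases hj : j = w K
        · rw [hi, hj]
        · rw [hi, Function.update_self, Function.update_of_ne hj] at hij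
          exact absurd hij (hne j)
      · by_cases hj : j = w K
        · rw [hj, Function.update_self, Function.update_of_ne hi] at hij
          exact absurd hij.symm (hne i)
        · rw [Function.update_of_ne hi, Function.update_of_ne hj] at hij
          exact hvinj hij
    · intro t ht
      by_cases hwt : ∃ a, t a = w K
      · obtain ⟨a, ha⟩ := hwt
        have hcomp : Function.update v (w K) new ∘ t = Function.update (v ∘ t) a new := by
          ext x
          by_cases hx : x = a
          · subst hx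
            simp [ha]
          · have : t x ≠ w K := fun h => hx (ht (h.trans ha.symm))
            simp [Function.update_of_ne hx, Function.update_of_ne this]
        have hDval : D (Function.update v (w K) new ∘ t) = σ⁻¹ * g t a (f lam) := by
          rw [hcomp, hg]
          simp only [new, D]
          rw [AlternatingMap.map_update_smul, smul_eq_mul]
        rw [hDval]
        constructor
        · intro h0
          rcases mul_eq_zero.1 h0 with h0 | h0
          · exact absurd h0 (inv_ne_zero hsum)
          · by_contra hcon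
            push Not at hcon
            have hTK : Finset.univ.image t ≠ T K := hcon K (by simp [K])
            exact hlam (Sum.inr (Sum.inl ⟨(t, a), ht, ha, hTK⟩)) h0
        · rintro ⟨k, hk, hkT⟩
          have hkK : k = K := by
            by_contra hne
            apply hww k K hne
            rw [← hkT]
            exact Finset.mem_image.2 ⟨a, Finset.mem_univ _, ha⟩
          subst hkK
          have : g t a (f lam) = 0 := by
            rw [hf, map_sum]
            refine Finset.sum_eq_zero fun i hi => ?_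
            rw [map_smul, hg, smul_eq_mul]
            have hiT : i ∈ Finset.univ.image t := by
              rw [hkT]
              exact Finset.mem_of_mem_erase hi
            obtain ⟨b, -, hb⟩ := Finset.mem_image.1 hiT
            have hba : b ≠ a := by
              rintro rfl
              rw [ha] at hb
              exact hwKB (hb ▸ hi)
            have : D (Function.update (v ∘ t) a (v i)) = 0 := by
              refine AlternatingMap.map_eq_zero_of_eq _ _ ?_ hba
              rw [Function.update_of_ne hba, Function.update_self]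
              simp [hb]
            rw [this, mul_zero]
          rw [this, mul_zero]
      · push Not at hwt
        have hcomp : Function.update v (w K) new ∘ t = v ∘ t := by
          ext x
          simp [Function.update_of_ne (hwt x)]
        rw [hcomp, hv t ht]
        constructor
        · rintro ⟨k, hk, hkT⟩
          exact ⟨k, by omega, hkT⟩
        · rintro ⟨k, hk, hkT⟩
          refine ⟨k, ?_, hkT⟩
          by_contra hcon
          have hkK : k = K := Fin.ext (by simp [K]; omega)
          rw [hkK] at hkT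
          have : w K ∈ Finset.univ.image t := by
            rw [hkT]
            exact hw K
          obtain ⟨x, -, hx⟩ := Finset.mem_image.1 this
          exact hwt x hx

/-! ### Determinant of an affine image -/

lemma det_affine {n : ℕ} (φ : (Fin n → ℝ) →ᵃ[ℝ] (Fin (n + 1) → ℝ)) :
    ∃ c : ℝ, ∀ y : Fin (n + 1) → Fin n → ℝ,
      D (fun i => φ (y i)) = Matrix.det (Matrix.of fun i => (Fin.cons 1 (y i) : Fin (n + 1) → ℝ)) * c := by
  let M : Matrix (Fin (n + 1)) (Fin (n + 1)) ℝ :=
    Matrix.of (Fin.cons (φ 0) (fun j => φ.linear (Pi.single j 1)) : Fin (n + 1) → Fin (n + 1) → ℝ)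
  refine ⟨M.det, fun y => ?_⟩
  rw [← Matrix.det_mul, D_eq]
  congr 1
  ext i k
  rw [Matrix.mul_apply, Fin.sum_univ_succ]
  simp only [Matrix.of_apply, Fin.cons_zero, Fin.cons_succ, one_mul, M]
  have h1 : φ (y i) = φ.linear (y i) + φ 0 := by
    have := φ.linearMap_vsub (y i) 0
    simp only [vsub_eq_sub, sub_zero] at this
    rw [this]
    abel
  have h2 : y i = ∑ j, y i j • (Pi.single j (1 : ℝ) : Fin n → ℝ) := by
    ext l
    simp [Finset.sum_apply, Pi.single_apply]
  rw [h1]
  conv_lhs => rw [h2]
  rw [map_sum]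
  simp only [map_smul, Pi.add_apply, Finset.sum_apply, Pi.smul_apply, smul_eq_mul]
  ring

/-- the standard hyperplane `x_0 = 1` -/
noncomputable def phi0 (n : ℕ) : (Fin n → ℝ) →ᵃ[ℝ] (Fin (n + 1) → ℝ) where
  toFun y := Fin.cons 1 y
  linear :=
    { toFun := fun y => Fin.cons 0 y
      map_add' := by
        intro x y
        ext k
        refine Fin.cases ?_ (fun j => ?_) k <;> simp
      map_smul' := by
        intro c x
        ext k
        refine Fin.cases ?_ (fun j => ?_) k <;> simp }
  map_vadd' := by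
    intro p v
    ext k
    refine Fin.cases ?_ (fun j => ?_) k <;> simp

lemma phi0_apply (n : ℕ) (y : Fin n → ℝ) : phi0 n y = Fin.cons 1 y := rfl

lemma phi0_inj (n : ℕ) : Function.Injective (phi0 n) := by
  intro x y h
  rw [phi0_apply, phi0_apply] at h
  ext k
  have := congrFun h k.succ
  simpa using this

/-! ### Two-row expansion -/

lemma D_two {n : ℕ} (u : Fin (n + 1) → Fin (n + 1) → ℝ) (i j : Fin (n + 1)) (hij : i ≠ j)
    (E : Fin (n + 1) → ℝ) (a b : ℝ) :
    D (Function.update (Function.update u i (u i + a • E)) j (u j + b • E)) =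
      D u + b * D (Function.update u j E) + a * D (Function.update u i E) := by
  unfold D
  have hji : j ≠ i := hij.symm
  have e1 : Function.update (Function.update u i (u i + a • E)) j (u j) =
      Function.update u i (u i + a • E) := by
    conv_rhs => rw [← Function.update_eq_self j (Function.update u i (u i + a • E))]
    rw [Function.update_of_ne hji]
  rw [AlternatingMap.map_update_add, e1, AlternatingMap.map_update_add, Function.update_eq_self,
    AlternatingMap.map_update_smul, AlternatingMap.map_update_smul]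
  rw [Function.update_comm hij]
  rw [AlternatingMap.map_update_add, AlternatingMap.map_update_smul]
  have e2 : Function.update (Function.update u j E) i (u i) = Function.update u j E := by
    conv_rhs => rw [← Function.update_eq_self i (Function.update u j E)]
    rw [Function.update_of_ne hij]
  have e3 : (Matrix.detRowAlternating (R := ℝ) (n := Fin (n + 1)))
      (Function.update (Function.update u j E) i E) = 0 := by
    refine AlternatingMap.map_eq_zero_of_eq _ _ ?_ hij
    rw [Function.update_self, Function.update_of_ne hji, Function.update_self]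
  rw [e2, e3]
  simp only [smul_eq_mul]
  ring

/-! ### The chain -/

abbrev I (m r : ℕ) := Fin (m + 2) ⊕ (Fin (m + 1) × Fin r)

def tk (m r : ℕ) (k : Fin (m + 1)) : Fin (r + 1 + 1) → I m r :=
  Fin.cons (Sum.inl k.castSucc) (Fin.cons (Sum.inl k.succ) (fun i : Fin r => Sum.inr (k, i)))

lemma tk_zero (m r : ℕ) (k : Fin (m + 1)) : tk m r k 0 = Sum.inl k.castSucc := rfl

lemma tk_one (m r : ℕ) (k : Fin (m + 1)) : tk m r k 1 = Sum.inl k.succ := rfl

lemma tk_succ (m r : ℕ) (k : Fin (m + 1)) (i : Fin r) : tk m r k i.succ.succ = Sum.inr (k, i) := rfl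

lemma tk_inj (m r : ℕ) (k : Fin (m + 1)) : Function.Injective (tk m r k) := by
  intro x y
  refine Fin.cases ?_ (fun x => ?_) x <;> refine Fin.cases ?_ (fun y => ?_) y
  · intro _; rfl
  · refine Fin.cases ?_ (fun y => ?_) y
    · intro h
      have h' : (Sum.inl k.castSucc : I m r) = Sum.inl k.succ := h
      have := Sum.inl_injective h'
      exact absurd this (Fin.castSucc_lt_succ).ne
    · intro h
      have h' : (Sum.inl k.castSucc : I m r) = Sum.inr (k, y) := h
      exact absurd h' (by simp)
  · refine Fin.cases ?_ (fun x => ?_) x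
    · intro h
      have h' : (Sum.inl k.succ : I m r) = Sum.inl k.castSucc := h
      have := Sum.inl_injective h'
      exact absurd this.symm (Fin.castSucc_lt_succ).ne
    · intro h
      have h' : (Sum.inr (k, x) : I m r) = Sum.inl k.castSucc := h
      exact absurd h' (by simp)
  · refine Fin.cases ?_ (fun x => ?_) x <;> refine Fin.cases ?_ (fun y => ?_) y
    · intro _; rfl
    · intro h
      have h' : (Sum.inl k.succ : I m r) = Sum.inr (k, y) := h
      exact absurd h' (by simp)
    · intro h
      have h' : (Sum.inr (k, x) : I m r) = Sum.inl k.succ := h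
      exact absurd h' (by simp)
    · intro h
      have h' : (Sum.inr (k, x) : I m r) = Sum.inr (k, y) := h
      have := Sum.inr_injective h'
      rw [(Prod.mk.inj this).2]

def Ts (m r : ℕ) (k : Fin (m + 1)) : Finset (I m r) := Finset.univ.image (tk m r k)

lemma mem_Ts (m r : ℕ) (k : Fin (m + 1)) (z : I m r) :
    z ∈ Ts m r k ↔ z = Sum.inl k.castSucc ∨ z = Sum.inl k.succ ∨ ∃ i, z = Sum.inr (k, i) := by
  unfold Ts
  simp only [Finset.mem_image, Finset.mem_univ, true_and]
  constructor
  · rintro ⟨x, hx⟩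
    revert hx
    refine Fin.cases ?_ (fun x => ?_) x
    · intro h; left; exact h.symm
    · refine Fin.cases ?_ (fun x => ?_) x
      · intro h; right; left; exact h.symm
      · intro h; right; right; exact ⟨x, h.symm⟩
  · rintro (h | h | ⟨i, h⟩)
    · exact ⟨0, h.symm⟩
    · exact ⟨1, h.symm⟩
    · exact ⟨i.succ.succ, h.symm⟩

lemma card_Ts (m r : ℕ) (k : Fin (m + 1)) : (Ts m r k).card = r + 1 + 1 := by
  rw [Ts, Finset.card_image_of_injective _ (tk_inj m r k)]
  simp

lemma Ts_inter (m r : ℕ) (j k : Fin (m + 1)) (hjk : j ≠ k) : (Ts m r j ∩ Ts m r k).card ≤ 1 := by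
  rw [Finset.card_le_one]
  intro x hx y hy
  rw [Finset.mem_inter, mem_Ts, mem_Ts] at hx hy
  have hjk' : (j : ℕ) ≠ k := fun h => hjk (Fin.ext h)
  have key : ∀ z : I m r, (z = Sum.inl j.castSucc ∨ z = Sum.inl j.succ ∨ ∃ i, z = Sum.inr (j, i)) →
      (z = Sum.inl k.castSucc ∨ z = Sum.inl k.succ ∨ ∃ i, z = Sum.inr (k, i)) →
      ∃ w : Fin (m + 2), z = Sum.inl w ∧ ((w : ℕ) = j ∨ (w : ℕ) = j + 1) ∧
        ((w : ℕ) = k ∨ (w : ℕ) = k + 1) := by
    rintro z (h1 | h1 | ⟨i, h1⟩) (h2 | h2 | ⟨i', h2⟩)
    · rw [h1] at h2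
      have := Sum.inl_injective h2
      have h3 := congrArg Fin.val this
      simp only [Fin.val_castSucc] at h3
      exact absurd h3 hjk'
    · rw [h1] at h2
      have h3 := congrArg Fin.val (Sum.inl_injective h2)
      simp only [Fin.val_castSucc, Fin.val_succ] at h3
      exact ⟨j.castSucc, h1, by left; simp, by right; simp [h3]⟩
    · rw [h1] at h2
      exact absurd h2 (by simp)
    · rw [h1] at h2
      have h3 := congrArg Fin.val (Sum.inl_injective h2)
      simp only [Fin.val_castSucc, Fin.val_succ] at h3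
      exact ⟨j.succ, h1, by right; simp, by left; simp [h3]⟩
    · rw [h1] at h2
      have h3 := congrArg Fin.val (Sum.inl_injective h2)
      simp only [Fin.val_succ] at h3
      exact absurd (by omega) hjk'
    · rw [h1] at h2
      exact absurd h2 (by simp)
    · rw [h1] at h2
      exact absurd h2 (by simp)
    · rw [h1] at h2
      exact absurd h2 (by simp)
    · rw [h1] at h2
      have := Sum.inr_injective h2
      exact absurd (Prod.mk.inj this).1 hjk
  obtain ⟨w, hw, hw1, hw2⟩ := key x hx.1 hx.2
  obtain ⟨w', hw', hw1', hw2'⟩ := key y hy.1 hy.2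
  rw [hw, hw']
  congr 1
  apply Fin.ext
  omega

/-- The base configuration together with a direction. -/
lemma chain (m r : ℕ) (hm : 1 ≤ m) (hr : 1 ≤ r) :
    ∃ (v : I m r → Fin (r + 1 + 1) → ℝ) (E : Fin (r + 1 + 1) → ℝ),
      (∀ i, v i 0 = 1) ∧ E 0 = 0 ∧ Function.Injective v ∧
      (∀ t : Fin (r + 1 + 1) → I m r, Function.Injective t →
        (D (v ∘ t) = 0 ↔ ∃ k, Finset.univ.image t = Ts m r k)) ∧
      ∀ k, D (Function.update (v ∘ tk m r k) 0 E) ≠ 0 ∧
        D (Function.update (v ∘ tk m r k) 1 E) ≠ 0 := by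
  classical
  obtain ⟨v, hv0, hvinj, hv⟩ := base (n := r + 1) (by omega) (Ts m r)
    (fun k => (Sum.inr (k, ⟨0, by omega⟩) : I m r)) (card_Ts m r) (Ts_inter m r)
    (fun k => (mem_Ts _ _ _ _).2 (Or.inr (Or.inr ⟨_, rfl⟩)))
    (fun j k hjk h => by
      rw [mem_Ts] at h
      rcases h with h | h | ⟨i, h⟩
      · simp at h
      · simp at h
      · have := Sum.inr_injective h
        exact hjk (Prod.mk.inj this).1.symm)
  have key : ∀ (k : Fin (m + 1)) (a : Fin (r + 1 + 1)), ∃ E ∈ LinearMap.ker
      (LinearMap.proj 0 : (Fin (r + 1 + 1) → ℝ) →ₗ[ℝ] ℝ),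
      D (Function.update (v ∘ tk m r k) a E) ≠ 0 := by
    intro k a
    -- an index outside the link
    obtain ⟨l, hl⟩ : ∃ l : Fin (m + 1), l ≠ k := by
      by_cases h : k = ⟨0, by omega⟩
      · exact ⟨⟨1, by omega⟩, by rw [h]; simp [Fin.ext_iff]⟩
      · exact ⟨⟨0, by omega⟩, fun h' => h h'.symm⟩
    let b : I m r := Sum.inr (l, ⟨0, by omega⟩)
    have hb : b ∉ Ts m r k := by
      intro h
      rw [mem_Ts] at h
      rcases h with h | h | ⟨i, h⟩
      · simp [b] at h
      · simp [b] at h
      · exact hl (Prod.mk.inj (Sum.inr_injective h)).1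
    have hbt : ∀ x, tk m r k x ≠ b := fun x hx =>
      hb (Finset.mem_image.2 ⟨x, Finset.mem_univ _, hx⟩)
    have hinj : Function.Injective (Function.update (tk m r k) a b) := by
      intro x y hxy
      by_cases hx : x = a
      · by_cases hy : y = a
        · rw [hx, hy]
        · rw [hx, Function.update_self, Function.update_of_ne hy] at hxy
          exact absurd hxy.symm (hbt y)
      · by_cases hy : y = a
        · rw [hy, Function.update_self, Function.update_of_ne hx] at hxy
          exact absurd hxy (hbt x)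
        · rw [Function.update_of_ne hx, Function.update_of_ne hy] at hxy
          exact tk_inj m r k hxy
    have hne : D (v ∘ Function.update (tk m r k) a b) ≠ 0 := by
      intro h0
      obtain ⟨l', hl'⟩ := (hv _ hinj).1 h0
      have hsub : (Ts m r k).erase (tk m r k a) ⊆ Ts m r l' := by
        intro z hz
        rw [Finset.mem_erase] at hz
        obtain ⟨hz1, hz2⟩ := hz
        obtain ⟨x, -, hx⟩ := Finset.mem_image.1 hz2
        rw [← hl']
        refine Finset.mem_image.2 ⟨x, Finset.mem_univ _, ?_⟩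
        rw [Function.update_of_ne]
        · exact hx
        · rintro rfl
          exact hz1 hx.symm
      have hbl : b ∈ Ts m r l' := by
        rw [← hl']
        exact Finset.mem_image.2 ⟨a, Finset.mem_univ _, Function.update_self _ _ _⟩
      by_cases hlk : l' = k
      · rw [hlk] at hbl
        exact hb hbl
      · have h1 := Ts_inter m r l' k hlk
        have h2 : (Ts m r k).erase (tk m r k a) ⊆ Ts m r l' ∩ Ts m r k := fun z hz =>
          Finset.mem_inter.2 ⟨hsub hz, Finset.mem_of_mem_erase hz⟩
        have h3 := Finset.card_le_card h2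
        have ha : tk m r k a ∈ Ts m r k := Finset.mem_image.2 ⟨a, Finset.mem_univ _, rfl⟩
        rw [Finset.card_erase_of_mem ha, card_Ts] at h3
        omega
    have hzero : D (v ∘ tk m r k) = 0 := (hv _ (tk_inj m r k)).2 ⟨k, rfl⟩
    refine ⟨v b - v (tk m r k a), ?_, ?_⟩
    · simp [hv0]
    · have : D (Function.update (v ∘ tk m r k) a (v b - v (tk m r k a))) =
          D (v ∘ Function.update (tk m r k) a b) - D (v ∘ tk m r k) := by
        unfold D
        rw [AlternatingMap.map_update_sub, Function.comp_update]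
        congr 2
        rw [← Function.comp_update, Function.update_eq_self]
      rw [this, hzero, sub_zero]
      exact hne
  let F : Fin (m + 1) × Bool → Module.Dual ℝ (Fin (r + 1 + 1) → ℝ) := fun q =>
    (Matrix.detRowAlternating (R := ℝ) (n := Fin (r + 1 + 1))).toMultilinearMap.toLinearMap
      (v ∘ tk m r q.1) (if q.2 then 0 else 1)
  obtain ⟨E, hE0, hE⟩ := Module.Dual.exists_forall_mem_ne_zero_of_forall_exists
    (LinearMap.ker (LinearMap.proj 0 : (Fin (r + 1 + 1) → ℝ) →ₗ[ℝ] ℝ)) F (by
      rintro ⟨k, b⟩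
      obtain ⟨E, hE0, hE⟩ := key k (if b then 0 else 1)
      exact ⟨E, hE0, hE⟩)
  refine ⟨v, E, hv0, by simpa using hE0, hvinj, hv, fun k => ⟨hE (k, true), hE (k, false)⟩⟩

/-! ### Heights -/

lemma sign_data (m : ℕ) (ρ : ℕ → ℝ) (hρ : ∀ k, ρ k ≠ 0) :
    ∃ (τ : ℕ → ℝ) (κ : ℝ), 0 < κ ∧ (∀ k, τ k * τ k = 1) ∧
      (∀ k, τ (k + 1) * ρ k = τ k * |ρ k|) ∧ ∀ k, k < m + 1 → κ * |ρ k| < 1 ∧ κ < |ρ k| := by
  let τ : ℕ → ℝ := fun k => Nat.rec 1 (fun k t => t * (ρ k / |ρ k|)) k
  have hτs : ∀ k, τ (k + 1) = τ k * (ρ k / |ρ k|) := fun k => rfl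
  have habs : ∀ k, 0 < |ρ k| := fun k => abs_pos.2 (hρ k)
  have hq : ∀ k, (ρ k / |ρ k|) * (ρ k / |ρ k|) = 1 := by
    intro k
    rw [div_mul_div_comm, div_eq_one_iff_eq (mul_pos (habs k) (habs k)).ne', abs_mul_abs_self]
  set S : ℝ := 1 + ∑ k ∈ Finset.range (m + 1), (|ρ k| + |ρ k|⁻¹) with hS
  have hterm : ∀ k, 0 ≤ |ρ k| + |ρ k|⁻¹ := fun k => by
    have := habs k
    positivity
  have hS1 : ∀ k, k < m + 1 → |ρ k| + |ρ k|⁻¹ < S := by
    intro k hk
    have := Finset.single_le_sum (f := fun k => |ρ k| + |ρ k|⁻¹) (fun i _ => hterm i)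
      (Finset.mem_range.2 hk)
    rw [hS]
    linarith
  have hSpos : 0 < S := by
    have : 0 ≤ ∑ k ∈ Finset.range (m + 1), (|ρ k| + |ρ k|⁻¹) :=
      Finset.sum_nonneg fun i _ => hterm i
    linarith
  refine ⟨τ, S⁻¹, inv_pos.2 hSpos, ?_, ?_, ?_⟩
  · intro k
    induction k with
    | zero => show (1 : ℝ) * 1 = 1; norm_num
    | succ k ih =>
      rw [hτs]
      calc τ k * (ρ k / |ρ k|) * (τ k * (ρ k / |ρ k|))
          = (τ k * τ k) * ((ρ k / |ρ k|) * (ρ k / |ρ k|)) := by ring
        _ = 1 := by rw [ih, hq, one_mul]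
  · intro k
    rw [hτs, mul_assoc, div_mul_eq_mul_div, ← abs_mul_abs_self, mul_div_assoc,
      div_self (habs k).ne', mul_one]
  · intro k hk
    have h1 := hS1 k hk
    have h2 : 0 < |ρ k|⁻¹ := inv_pos.2 (habs k)
    constructor
    · rw [inv_mul_lt_iff₀ hSpos, mul_one]
      linarith
    · rw [inv_lt_comm₀ hSpos (habs k)]
      have := habs k
      linarith

def cP (m : ℕ) (τ : ℕ → ℝ) (κ : ℝ) (j : ℕ) : ℝ := τ j * κ ^ (m + 1 - j)

noncomputable def cA (m : ℕ) (τ : ℕ → ℝ) (κ : ℝ) (k0 : ℕ) (j : ℕ) : ℝ :=
  if j ≤ k0 then (if j = 0 then 0 else τ j * κ ^ (m + 1 - j)) else -(τ j * (κ⁻¹) ^ (m + 1 - j))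

lemma cP_pos (m : ℕ) (τ ρ : ℕ → ℝ) (κ : ℝ) (hκ : 0 < κ) (h1 : ∀ k, τ k * τ k = 1)
    (h2 : ∀ k, τ (k + 1) * ρ k = τ k * |ρ k|) (k : ℕ) (hk : k < m + 1) (h3 : κ * |ρ k| < 1) :
    0 < τ (k + 1) * (cP m τ κ (k + 1) - ρ k * cP m τ κ k) := by
  unfold cP
  have e1 : m + 1 - (k + 1) = m - k := by omega
  have e2 : m + 1 - k = (m - k) + 1 := by omega
  rw [e1, e2, pow_succ]
  have : τ (k + 1) * (τ (k + 1) * κ ^ (m - k) - ρ k * (τ k * (κ ^ (m - k) * κ))) =
      κ ^ (m - k) * ((τ (k + 1) * τ (k + 1)) - (τ (k + 1) * ρ k) * τ k * κ) := by ring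
  rw [this, h1, h2]
  have e3 : τ k * |ρ k| * τ k * κ = (τ k * τ k) * (κ * |ρ k|) := by ring
  rw [e3, h1, one_mul]
  have : 0 < κ ^ (m - k) := pow_pos hκ _
  exact mul_pos this (by linarith)

lemma cA_pos (m : ℕ) (τ ρ : ℕ → ℝ) (κ : ℝ) (hκ : 0 < κ) (h1 : ∀ k, τ k * τ k = 1)
    (h2 : ∀ k, τ (k + 1) * ρ k = τ k * |ρ k|) (k k0 : ℕ) (hk : k < m + 1) (h3 : κ * |ρ k| < 1)
    (h4 : κ < |ρ k|) (hkk : k ≠ k0) :
    0 < τ (k + 1) * (cA m τ κ k0 (k + 1) - ρ k * cA m τ κ k0 k) := by
  rcases lt_or_gt_of_ne hkk with hlt | hgt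
  · by_cases hk0 : k = 0
    · subst hk0
      unfold cA
      rw [if_pos (by omega : 0 + 1 ≤ k0), if_neg (by omega : ¬ (0 + 1 = 0)),
        if_pos (by omega : 0 ≤ k0), if_pos rfl]
      rw [mul_zero, sub_zero, ← mul_assoc, h1, one_mul]
      exact pow_pos hκ _
    · have e1 : cA m τ κ k0 (k + 1) = cP m τ κ (k + 1) := by
        unfold cA cP
        rw [if_pos (by omega : k + 1 ≤ k0), if_neg (by omega : ¬ (k + 1 = 0))]
      have e2 : cA m τ κ k0 k = cP m τ κ k := by
        unfold cA cP
        rw [if_pos (by omega : k ≤ k0), if_neg hk0]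
      rw [e1, e2]
      exact cP_pos m τ ρ κ hκ h1 h2 k hk h3
  · have e1 : cA m τ κ k0 (k + 1) = -(τ (k + 1) * (κ⁻¹) ^ (m - k)) := by
      unfold cA
      rw [if_neg (by omega : ¬ (k + 1 ≤ k0))]
      congr 3
      omega
    have e2 : cA m τ κ k0 k = -(τ k * ((κ⁻¹) ^ (m - k) * κ⁻¹)) := by
      unfold cA
      rw [if_neg (by omega : ¬ (k ≤ k0)), ← pow_succ]
      congr 3
      omega
    rw [e1, e2]
    have : τ (k + 1) * (-(τ (k + 1) * (κ⁻¹) ^ (m - k)) - ρ k * -(τ k * ((κ⁻¹) ^ (m - k) * κ⁻¹))) =
        (κ⁻¹) ^ (m - k) * ((τ (k + 1) * ρ k) * τ k * κ⁻¹ - (τ (k + 1) * τ (k + 1))) := by ring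
    rw [this, h1, h2]
    have e3 : τ k * |ρ k| * τ k * κ⁻¹ = (τ k * τ k) * (|ρ k| * κ⁻¹) := by ring
    rw [e3, h1, one_mul]
    have h5 : 0 < (κ⁻¹) ^ (m - k) := pow_pos (inv_pos.2 hκ) _
    have h6 : 1 < |ρ k| * κ⁻¹ := by
      rw [← div_eq_mul_inv, one_lt_div hκ]
      exact h4
    exact mul_pos h5 (by linarith)

/-! ### Perturbed configurations -/

/-- the configuration with heights `γ c` -/
noncomputable def X {m r : ℕ} (v : I m r → Fin (r + 1 + 1) → ℝ) (E : Fin (r + 1 + 1) → ℝ)
    (c : ℕ → ℝ) (γ : ℝ) : I m r → Fin (r + 1 + 1) → ℝ :=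
  Sum.elim (fun k => v (Sum.inl k) + (γ * c k) • E) (fun q => v (Sum.inr q))

lemma X_tk {m r : ℕ} (v : I m r → Fin (r + 1 + 1) → ℝ) (E : Fin (r + 1 + 1) → ℝ)
    (c : ℕ → ℝ) (γ : ℝ) (k : Fin (m + 1)) :
    X v E c γ ∘ tk m r k = Function.update (Function.update (v ∘ tk m r k) 0
      ((v ∘ tk m r k) 0 + (γ * c k) • E)) 1 ((v ∘ tk m r k) 1 + (γ * c (k + 1)) • E) := by
  funext x
  refine Fin.cases ?_ (fun x => ?_) x
  · rw [Function.update_of_ne (by simp), Function.update_self]
    rfl
  · refine Fin.cases ?_ (fun x => ?_) x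
    · have : (Fin.succ 0 : Fin (r + 1 + 1)) = 1 := rfl
      rw [this, Function.update_self]
      simp only [Function.comp_apply, tk_one, X, Sum.elim_inl, Fin.val_succ]
    · have h1 : (x.succ.succ : Fin (r + 1 + 1)) ≠ 1 := by
        intro h
        have := congrArg Fin.val h
        simp at this
      have h0 : (x.succ.succ : Fin (r + 1 + 1)) ≠ 0 := Fin.succ_ne_zero _
      rw [Function.update_of_ne h1, Function.update_of_ne h0]
      rfl

/-- general heights: value of the determinant on a link -/
lemma D_link {m r : ℕ} (v : I m r → Fin (r + 1 + 1) → ℝ) (E : Fin (r + 1 + 1) → ℝ)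
    (c : ℕ → ℝ) (γ : ℝ) (k : Fin (m + 1)) (h0 : D (v ∘ tk m r k) = 0) :
    D (X v E c γ ∘ tk m r k) = γ * (c (k + 1) * D (Function.update (v ∘ tk m r k) 1 E) +
      c k * D (Function.update (v ∘ tk m r k) 0 E)) := by
  rw [X_tk, D_two _ 0 1 (by simp), h0]
  ring

lemma X_cont {m r : ℕ} (v : I m r → Fin (r + 1 + 1) → ℝ) (E : Fin (r + 1 + 1) → ℝ)
    (c : ℕ → ℝ) (t : Fin (r + 1 + 1) → I m r) :
    Continuous fun γ => D (X v E c γ ∘ t) := by
  have h : ∀ i, Continuous fun γ => X v E c γ i := by
    rintro (i | i)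
    · simp only [X, Sum.elim_inl]
      fun_prop
    · simp only [X, Sum.elim_inr]
      fun_prop
  have : (fun γ => D (X v E c γ ∘ t)) = fun γ => Matrix.det (Matrix.of fun i => X v E c γ (t i)) := by
    funext γ
    rw [D_eq]
    rfl
  rw [this]
  apply Continuous.matrix_det
  refine continuous_matrix fun i j => ?_
  exact (continuous_apply j).comp (h (t i))

lemma X_zero {m r : ℕ} (v : I m r → Fin (r + 1 + 1) → ℝ) (E : Fin (r + 1 + 1) → ℝ)
    (c : ℕ → ℝ) : X v E c 0 = v := by
  funext i
  rcases i with i | i <;> simp [X]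

lemma sign_eventually (f : ℝ → ℝ) (hf : Continuous f) (h0 : f 0 ≠ 0) :
    ∀ᶠ γ in nhdsWithin (0 : ℝ) (Set.Ioi 0), SignType.sign (f γ) = SignType.sign (f 0) := by
  apply Filter.Eventually.filter_mono nhdsWithin_le_nhds
  rcases lt_or_gt_of_ne h0 with h | h
  · filter_upwards [hf.continuousAt.eventually_lt continuousAt_const h] with γ hγ
    rw [sign_neg hγ, sign_neg h]
  · filter_upwards [continuousAt_const.eventually_lt hf.continuousAt h] with γ hγ
    rw [sign_pos hγ, sign_pos h]

lemma exists_perm {N : ℕ} {κ : Type} (s t : Fin N → κ) [DecidableEq κ] (ht : Function.Injective t)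
    (h : Finset.univ.image t = Finset.univ.image s) : ∃ π : Equiv.Perm (Fin N), t = s ∘ π := by
  have h1 : ∀ x, ∃ y, s y = t x := by
    intro x
    have : t x ∈ Finset.univ.image s := by
      rw [← h]
      exact Finset.mem_image.2 ⟨x, Finset.mem_univ _, rfl⟩
    obtain ⟨y, -, hy⟩ := Finset.mem_image.1 this
    exact ⟨y, hy⟩
  choose f hf using h1
  have hfi : Function.Injective f := by
    intro x y hxy
    apply ht
    rw [← hf x, ← hf y, hxy]
  refine ⟨Equiv.ofBijective f (Finite.injective_iff_bijective.1 hfi), ?_⟩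
  funext x
  exact (hf x).symm

lemma D_perm {n : ℕ} (u : Fin (n + 1) → Fin (n + 1) → ℝ) (π : Equiv.Perm (Fin (n + 1))) :
    D (u ∘ π) = Equiv.Perm.sign π • D u := by
  unfold D
  exact AlternatingMap.map_perm _ _ _

/-- The perturbed configurations have the same order type wherever the links agree. -/
lemma same_sign {m r : ℕ} (v Y Z : I m r → Fin (r + 1 + 1) → ℝ)
    (hv : ∀ t : Fin (r + 1 + 1) → I m r, Function.Injective t →
        (D (v ∘ t) = 0 ↔ ∃ k, Finset.univ.image t = Ts m r k))
    (hY : ∀ t, Function.Injective t → D (v ∘ t) ≠ 0 →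
      SignType.sign (D (Y ∘ t)) = SignType.sign (D (v ∘ t)))
    (hZ : ∀ t, Function.Injective t → D (v ∘ t) ≠ 0 →
      SignType.sign (D (Z ∘ t)) = SignType.sign (D (v ∘ t)))
    (t : Fin (r + 1 + 1) → I m r)
    (hlink : ∀ k : Fin (m + 1), (∀ x, tk m r k x ∈ Finset.univ.image t) →
      SignType.sign (D (Y ∘ tk m r k)) = SignType.sign (D (Z ∘ tk m r k))) :
    SignType.sign (D (Y ∘ t)) = SignType.sign (D (Z ∘ t)) := by
  classical
  by_cases hinj : Function.Injective t
  · by_cases h0 : D (v ∘ t) = 0
    · obtain ⟨k, hk⟩ := (hv t hinj).1 h0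
      obtain ⟨π, hπ⟩ := exists_perm (tk m r k) t hinj hk
      have hl := hlink k (fun x => by
        rw [hk]
        exact Finset.mem_image.2 ⟨x, Finset.mem_univ _, rfl⟩)
      have e1 : Y ∘ t = (Y ∘ tk m r k) ∘ π := by rw [hπ]; rfl
      have e2 : Z ∘ t = (Z ∘ tk m r k) ∘ π := by rw [hπ]; rfl
      rw [e1, e2, D_perm, D_perm]
      rcases Int.units_eq_one_or (Equiv.Perm.sign π) with h | h
      · rw [h, one_smul, one_smul, hl]
      · rw [h]
        simp only [Units.neg_smul, one_smul, Left.sign_neg, hl]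
    · rw [hY t hinj h0, hZ t hinj h0]
  · obtain ⟨a, b, hab, hne⟩ : ∃ a b, t a = t b ∧ a ≠ b := by
      simpa [Function.Injective] using hinj
    have e1 : D (Y ∘ t) = 0 :=
      AlternatingMap.map_eq_zero_of_eq _ _ (by simp [hab]) hne
    have e2 : D (Z ∘ t) = 0 :=
      AlternatingMap.map_eq_zero_of_eq _ _ (by simp [hab]) hne
    rw [e1, e2]

lemma cons_tail {n : ℕ} (x : Fin (n + 1) → ℝ) (h : x 0 = 1) :
    (Fin.cons 1 (Fin.tail x) : Fin (n + 1) → ℝ) = x := by
  conv_rhs => rw [← Fin.cons_self_tail x]
  rw [h]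

/-- sets of admissible heights -/
def S (m r : ℕ) (τ : ℕ → ℝ) (γ R : ℝ) : I m r → Set ℝ :=
  Sum.elim (fun k => if (k : ℕ) = 0 then {0} else if (k : ℕ) = m + 1 then {-(γ * τ (m + 1))}
    else Set.Icc (-(γ * R)) (γ * R)) (fun _ => {0})

lemma S_sub (m r : ℕ) (τ : ℕ → ℝ) (γ R : ℝ) (hγ : 0 < γ) (hR : 1 ≤ R) (hτ : ∀ k, τ k * τ k = 1)
    (i : I m r) (s : ℝ) (hs : s ∈ S m r τ γ R i) : |s| ≤ γ * R := by
  have hτ1 : |τ (m + 1)| = 1 := by
    have h1 : |τ (m + 1)| * |τ (m + 1)| = 1 := by rw [abs_mul_abs_self, hτ]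
    nlinarith [abs_nonneg (τ (m + 1))]
  rcases i with k | q
  · simp only [S, Sum.elim_inl] at hs
    split_ifs at hs with h1 h2
    · rw [Set.mem_singleton_iff] at hs
      rw [hs, abs_zero]
      positivity
    · rw [Set.mem_singleton_iff] at hs
      rw [hs, abs_neg, abs_mul, hτ1, abs_of_pos hγ]
      nlinarith
    · exact abs_le.2 ⟨by linarith [hs.1], hs.2⟩
  · simp only [S, Sum.elim_inr, Set.mem_singleton_iff] at hs
    rw [hs, abs_zero]
    positivity

lemma S_nice (m r : ℕ) (τ : ℕ → ℝ) (γ R : ℝ) (hγ : 0 < γ) (hR : 1 ≤ R) (i : I m r) :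
    IsCompact (S m r τ γ R i) ∧ Convex ℝ (S m r τ γ R i) ∧ (S m r τ γ R i).Nonempty := by
  rcases i with k | q
  · simp only [S, Sum.elim_inl]
    split_ifs with h1 h2
    · exact ⟨isCompact_singleton, convex_singleton _, Set.singleton_nonempty _⟩
    · exact ⟨isCompact_singleton, convex_singleton _, Set.singleton_nonempty _⟩
    · exact ⟨isCompact_Icc, convex_Icc _ _, Set.nonempty_Icc.2 (by nlinarith)⟩
  · simp only [S, Sum.elim_inr]
    exact ⟨isCompact_singleton, convex_singleton _, Set.singleton_nonempty _⟩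

/-- a tuple of fixed points -/
def st (m r : ℕ) (hm : 2 ≤ m) (hr : 1 ≤ r) : Fin (r + 1 + 1) → I m r :=
  Fin.cons (Sum.inr (⟨0, by omega⟩, ⟨0, by omega⟩))
    (Fin.cons (Sum.inr (⟨1, by omega⟩, ⟨0, by omega⟩)) (fun i : Fin r => Sum.inr (⟨2, by omega⟩, i)))

lemma st_inr (m r : ℕ) (hm : 2 ≤ m) (hr : 1 ≤ r) (x : Fin (r + 1 + 1)) :
    ∃ q, st m r hm hr x = Sum.inr q := by
  refine Fin.cases ?_ (fun x => ?_) x
  · exact ⟨_, rfl⟩
  · refine Fin.cases ?_ (fun x => ?_) x
    · exact ⟨_, rfl⟩
    · exact ⟨_, rfl⟩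

lemma st_inj (m r : ℕ) (hm : 2 ≤ m) (hr : 1 ≤ r) : Function.Injective (st m r hm hr) := by
  have e0 : st m r hm hr 0 = Sum.inr (⟨0, by omega⟩, ⟨0, by omega⟩) := rfl
  have e1 : st m r hm hr (Fin.succ 0) = Sum.inr (⟨1, by omega⟩, ⟨0, by omega⟩) := rfl
  have e2 : ∀ i : Fin r, st m r hm hr i.succ.succ = Sum.inr (⟨2, by omega⟩, i) := fun i => rfl
  intro x y
  refine Fin.cases ?_ (fun x => ?_) x <;> refine Fin.cases ?_ (fun y => ?_) y
  · intro _; rfl
  · refine Fin.cases ?_ (fun y => ?_) y
    · intro h
      rw [e0, e1] at h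
      simp at h
    · intro h
      rw [e0, e2] at h
      simp at h
  · refine Fin.cases ?_ (fun x => ?_) x
    · intro h
      rw [e0, e1] at h
      simp at h
    · intro h
      rw [e0, e2] at h
      simp at h
  · refine Fin.cases ?_ (fun x => ?_) x <;> refine Fin.cases ?_ (fun y => ?_) y
    · intro _; rfl
    · intro h
      rw [e1, e2] at h
      simp at h
    · intro h
      rw [e1, e2] at h
      simp at h
    · intro h
      rw [e2, e2] at h
      have := (Prod.mk.inj (Sum.inr_injective h)).2
      rw [this]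

theorem critical (m r : ℕ) (hm : 2 ≤ m) (hr : 1 ≤ r) :
    ∃ (a : I m r → Set (Fin (r + 1 + 1) → ℝ)) (p : I m r → Fin (r + 1) → ℝ),
      IsFamily a ∧ GeneralPosition p ∧
      (∀ B : Finset (I m r), B ≠ Finset.univ → MetConsistently a p B) ∧
      ¬ MetConsistently a p Finset.univ := by
  classical
  obtain ⟨v, E, hv0, hE0, hvinj, hv, hE⟩ := chain m r (by omega) hr
  set α : Fin (m + 1) → ℝ := fun k => D (Function.update (v ∘ tk m r k) 1 E) with hα
  set β : Fin (m + 1) → ℝ := fun k => D (Function.update (v ∘ tk m r k) 0 E) with hβ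
  have hα0 : ∀ k, α k ≠ 0 := fun k => (hE k).2
  have hβ0 : ∀ k, β k ≠ 0 := fun k => (hE k).1
  let ρ : ℕ → ℝ := fun k => if h : k < m + 1 then -(β ⟨k, h⟩) / α ⟨k, h⟩ else 1
  have hρk : ∀ k : Fin (m + 1), ρ k = -(β k) / α k := fun k => by
    simp only [ρ]
    rw [dif_pos k.2]
  have hρ0 : ∀ k, ρ k ≠ 0 := by
    intro k
    simp only [ρ]
    split_ifs with h
    · exact div_ne_zero (neg_ne_zero.2 (hβ0 _)) (hα0 _)
    · exact one_ne_zero
  obtain ⟨τ, κ, hκ, hτ, hτρ, hκρ⟩ := sign_data m ρ hρ0
  have hlink0 : ∀ k, D (v ∘ tk m r k) = 0 := fun k => (hv _ (tk_inj m r k)).2 ⟨k, rfl⟩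
  -- the value on a link
  have hval : ∀ (c : ℕ → ℝ) (γ : ℝ) (k : Fin (m + 1)), D (X v E c γ ∘ tk m r k) =
      (γ * (τ (k + 1) * (c (k + 1) - ρ k * c k))) * (τ (k + 1) * α k) := by
    intro c γ k
    rw [D_link v E c γ k (hlink0 k), hρk]
    have h1 : (γ * (τ (k + 1) * (c (k + 1) - -(β k) / α k * c k))) * (τ (k + 1) * α k) =
        (τ (k + 1) * τ (k + 1)) * (γ * (c (k + 1) * α k + c k * (β k * (α k / α k)))) := by
      have := hα0 k
      field_simp
      ring
    rw [h1, hτ, div_self (hα0 k), mul_one, one_mul]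
  have hsgn : ∀ (c : ℕ → ℝ) (γ : ℝ) (k : Fin (m + 1)), 0 < γ →
      0 < τ (k + 1) * (c (k + 1) - ρ k * c k) →
      SignType.sign (D (X v E c γ ∘ tk m r k)) = SignType.sign (τ (k + 1) * α k) := by
    intro c γ k hγ hc
    rw [hval, sign_mul, sign_pos (mul_pos hγ hc), one_mul]
  -- size of the heights
  set R : ℝ := 1 + ∑ k ∈ Finset.range (m + 1), ∑ j ∈ Finset.range (m + 2), |cA m τ κ k j| with hR
  have hR1 : 1 ≤ R := by
    have : 0 ≤ ∑ k ∈ Finset.range (m + 1), ∑ j ∈ Finset.range (m + 2), |cA m τ κ k j| :=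
      Finset.sum_nonneg fun i _ => Finset.sum_nonneg fun j _ => abs_nonneg _
    linarith
  have hcR : ∀ k j, k < m + 1 → j < m + 2 → |cA m τ κ k j| ≤ R := by
    intro k j hk hj
    have h1 := Finset.single_le_sum (f := fun j => |cA m τ κ k j|) (fun i _ => abs_nonneg _)
      (Finset.mem_range.2 hj)
    have h2 := Finset.single_le_sum (f := fun k => ∑ j ∈ Finset.range (m + 2), |cA m τ κ k j|)
      (fun i _ => Finset.sum_nonneg fun j _ => abs_nonneg _) (Finset.mem_range.2 hk)
    rw [hR]
    linarith
  -- choice of γ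
  have ev1 : ∀ᶠ γ in nhdsWithin (0 : ℝ) (Set.Ioi 0), ∀ t : Fin (r + 1 + 1) → I m r,
      D (v ∘ t) ≠ 0 → SignType.sign (D (X v E (cP m τ κ) γ ∘ t)) = SignType.sign (D (v ∘ t)) := by
    rw [Filter.eventually_all]
    intro t
    by_cases h : D (v ∘ t) = 0
    · exact Filter.Eventually.of_forall fun γ h' => absurd h h'
    · have := sign_eventually _ (X_cont v E (cP m τ κ) t) (by rw [X_zero]; exact h)
      filter_upwards [this] with γ hγ _
      rw [hγ, X_zero]
  have ev2 : ∀ᶠ γ in nhdsWithin (0 : ℝ) (Set.Ioi 0), ∀ (k0 : Fin (m + 1))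
      (t : Fin (r + 1 + 1) → I m r), D (v ∘ t) ≠ 0 →
      SignType.sign (D (X v E (cA m τ κ k0) γ ∘ t)) = SignType.sign (D (v ∘ t)) := by
    rw [Filter.eventually_all]
    intro k0
    rw [Filter.eventually_all]
    intro t
    by_cases h : D (v ∘ t) = 0
    · exact Filter.Eventually.of_forall fun γ h' => absurd h h'
    · have := sign_eventually _ (X_cont v E (cA m τ κ k0) t) (by rw [X_zero]; exact h)
      filter_upwards [this] with γ hγ _
      rw [hγ, X_zero]
  have ev3 : ∀ᶠ γ in nhdsWithin (0 : ℝ) (Set.Ioi 0), ∀ (q : I m r × I m r), q.1 ≠ q.2 →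
      2 * (γ * R) * ‖E‖ < ‖v q.1 - v q.2‖ := by
    rw [Filter.eventually_all]
    intro q
    by_cases h : q.1 = q.2
    · exact Filter.Eventually.of_forall fun γ h' => absurd h h'
    · apply Filter.Eventually.filter_mono nhdsWithin_le_nhds
      have hpos : 0 < ‖v q.1 - v q.2‖ := norm_pos_iff.2 (sub_ne_zero.2 fun h' => h (hvinj h'))
      have hc : Continuous fun γ : ℝ => 2 * (γ * R) * ‖E‖ := by fun_prop
      have h0 : (fun γ : ℝ => 2 * (γ * R) * ‖E‖) 0 < ‖v q.1 - v q.2‖ := by simpa using hpos
      filter_upwards [hc.continuousAt.eventually_lt continuousAt_const h0] with γ hγ _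
      exact hγ
  obtain ⟨γ, h1, h2, h3, hγ⟩ := (ev1.and (ev2.and (ev3.and self_mem_nhdsWithin))).exists
  have hγ' : 0 < γ := hγ
  -- the family and the points
  let a : I m r → Set (Fin (r + 1 + 1) → ℝ) := fun i => (fun s : ℝ => v i + s • E) '' S m r τ γ R i
  let p : I m r → Fin (r + 1) → ℝ := fun i => Fin.tail (X v E (cP m τ κ) γ i)
  have hX0 : ∀ c i, X v E c γ i 0 = 1 := by
    intro c i
    rcases i with i | i <;> simp [X, hv0, hE0]
  have hcons : ∀ (c : ℕ → ℝ) (t : Fin (r + 1 + 1) → I m r),
      orient ((fun i => Fin.tail (X v E c γ i)) ∘ t) = SignType.sign (D (X v E c γ ∘ t)) := by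
    intro c t
    unfold orient
    rw [D_eq]
    congr 2
    ext i j
    simp only [Matrix.of_apply, Function.comp_apply]
    rw [cons_tail _ (hX0 c (t i))]
  have hXv : ∀ c (t : Fin (r + 1 + 1) → I m r), (∀ x, ∃ q, t x = Sum.inr q) →
      X v E c γ ∘ t = v ∘ t := by
    intro c t ht
    funext x
    obtain ⟨q, hq⟩ := ht x
    simp only [Function.comp_apply, hq, X, Sum.elim_inr]
  refine ⟨a, p, ⟨?_, ?_⟩, ?_, ?_, ?_⟩
  · intro i
    obtain ⟨c1, c2, c3⟩ := S_nice m r τ γ R hγ' hR1 i
    refine ⟨c1.image (by fun_prop), ?_, c3.image _⟩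
    let f : ℝ →ᵃ[ℝ] (Fin (r + 1 + 1) → ℝ) :=
      (LinearMap.toSpanSingleton ℝ (Fin (r + 1 + 1) → ℝ) E).toAffineMap +
        AffineMap.const ℝ ℝ (v i)
    have hf : (fun s : ℝ => v i + s • E) = f := by
      funext s
      simp [f, add_comm]
    show Convex ℝ ((fun s : ℝ => v i + s • E) '' S m r τ γ R i)
    rw [hf]
    exact c2.affine_image f
  · intro i j hij
    rw [Set.disjoint_left]
    rintro x ⟨s, hs, rfl⟩ ⟨s', hs', he⟩
    have b1 := S_sub m r τ γ R hγ' hR1 hτ i s hs
    have b2 := S_sub m r τ γ R hγ' hR1 hτ j s' hs'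
    have e1 : v i - v j = (s' - s) • E := by
      have he' : v j + s' • E = v i + s • E := he
      rw [sub_smul]
      have : v i = v j + s' • E - s • E := by rw [he']; abel
      rw [this]
      abel
    have e2 := h3 (i, j) hij
    simp only at e2
    rw [e1, norm_smul, Real.norm_eq_abs] at e2
    have e3 : |s' - s| ≤ 2 * (γ * R) := by
      rw [abs_le] at *
      constructor <;> linarith [b1.1, b1.2, b2.1, b2.2]
    have := mul_le_mul_of_nonneg_right e3 (norm_nonneg E)
    linarith
  · -- general position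
    intro t ht
    rw [hcons]
    by_cases h0 : D (v ∘ t) = 0
    · obtain ⟨k, hk⟩ := (hv t ht).1 h0
      obtain ⟨π, hπ⟩ := exists_perm (tk m r k) t ht hk
      have e1 : X v E (cP m τ κ) γ ∘ t = (X v E (cP m τ κ) γ ∘ tk m r k) ∘ π := by rw [hπ]; rfl
      rw [e1, D_perm]
      have e2 := hsgn (cP m τ κ) γ k hγ' (cP_pos m τ ρ κ hκ hτ hτρ k k.2 (hκρ k k.2).1)
      have e3 : D (X v E (cP m τ κ) γ ∘ tk m r k) ≠ 0 := by
        intro h
        rw [h, sign_zero] at e2
        have : τ (k + 1) * α k ≠ 0 := by
          refine mul_ne_zero ?_ (hα0 k)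
          intro h
          have := hτ (k + 1)
          rw [h] at this
          norm_num at this
        exact this (sign_eq_zero_iff.1 e2.symm)
      rw [sign_ne_zero]
      rcases Int.units_eq_one_or (Equiv.Perm.sign π) with h | h
      · rw [h, one_smul]
        exact e3
      · rw [h]
        simpa using e3
    · rw [h1 t h0]
      rwa [sign_ne_zero]
  · -- proper subfamilies
    intro B hB
    obtain ⟨i0, hi0⟩ : ∃ i0, i0 ∉ B := by
      by_contra hcon
      push Not at hcon
      exact hB (Finset.eq_univ_iff_forall.2 hcon)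
    obtain ⟨k0, hk0⟩ : ∃ k0, i0 ∈ Ts m r k0 := by
      rcases i0 with w | ⟨k, i⟩
      · by_cases hw : w = 0
        · exact ⟨⟨0, by omega⟩, (mem_Ts _ _ _ _).2 (Or.inl (by rw [hw]; rfl))⟩
        · obtain ⟨k, hk⟩ := Fin.exists_succ_eq.2 hw
          exact ⟨k, (mem_Ts _ _ _ _).2 (Or.inr (Or.inl (by rw [hk])))⟩
      · exact ⟨k, (mem_Ts _ _ _ _).2 (Or.inr (Or.inr ⟨i, rfl⟩))⟩
    refine ⟨phi0 (r + 1), fun i => Fin.tail (X v E (cA m τ κ k0) γ i), phi0_inj _, ?_, ?_⟩
    · intro i _
      rw [phi0_apply, cons_tail _ (hX0 _ i)]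
      rcases i with j | q
      · refine ⟨γ * cA m τ κ k0 j, ?_, rfl⟩
        simp only [S, Sum.elim_inl]
        split_ifs with hj hj'
        · rw [Set.mem_singleton_iff, hj]
          simp [cA]
        · rw [Set.mem_singleton_iff, hj']
          have hk0' := k0.2
          unfold cA
          rw [if_neg (by omega : ¬ (m + 1 ≤ (k0 : ℕ)))]
          simp
        · have b := hcR k0 j k0.2 j.2
          rw [abs_le] at b
          constructor
          · nlinarith [b.1]
          · nlinarith [b.2]
      · refine ⟨0, ?_, ?_⟩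
        · simp [S]
        · simp [X]
    · intro t ht
      have e1 := hcons (cA m τ κ k0) t
      have e2 := hcons (cP m τ κ) t
      rw [show (p ∘ t) = (fun i => Fin.tail (X v E (cP m τ κ) γ i)) ∘ t from rfl, e1, e2]
      refine same_sign v _ _ hv (fun t _ h => h2 k0 t h) (fun t _ h => h1 t h) t ?_
      intro k hk
      have hkk : (k : ℕ) ≠ k0 := by
        intro h
        have hkk : k = k0 := Fin.ext h
        subst hkk
        obtain ⟨x, -, hx⟩ := Finset.mem_image.1 hk0
        have h4 := hk x
        rw [hx] at h4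
        obtain ⟨y, -, hy⟩ := Finset.mem_image.1 h4
        exact hi0 (hy ▸ ht y)
      rw [hsgn _ γ k hγ' (cA_pos m τ ρ κ hκ hτ hτρ k k0 k.2 (hκρ k k.2).1 (hκρ k k.2).2 hkk),
        hsgn _ γ k hγ' (cP_pos m τ ρ κ hκ hτ hτρ k k.2 (hκρ k k.2).1)]
  · -- the whole family
    rintro ⟨φ, y, -, hy, hot⟩
    obtain ⟨c, hc⟩ := det_affine φ
    have hy' : ∀ i, ∃ s ∈ S m r τ γ R i, φ (y i) = v i + s • E := by
      intro i
      obtain ⟨s, hs, he⟩ := hy i (Finset.mem_univ _)
      exact ⟨s, hs, he.symm⟩
    choose s hsS hs using hy'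
    have hdet : ∀ t : Fin (r + 1 + 1) → I m r,
        SignType.sign (D (fun x => φ (y (t x)))) =
          SignType.sign (D (X v E (cP m τ κ) γ ∘ t)) * SignType.sign c := by
      intro t
      have e1 := hc (fun x => y (t x))
      rw [e1, sign_mul]
      congr 1
      rw [← hcons]
      exact hot t fun k => Finset.mem_univ _
    -- orientation
    have hcpos : SignType.sign c = 1 := by
      have e1 := hdet (st m r hm hr)
      rw [hXv _ _ (st_inr m r hm hr)] at e1
      have e2 : (fun x => φ (y (st m r hm hr x))) = v ∘ st m r hm hr := by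
        funext x
        obtain ⟨q, hq⟩ := st_inr m r hm hr x
        have e3 := hsS (st m r hm hr x)
        rw [hq] at e3
        simp only [S, Sum.elim_inr, Set.mem_singleton_iff] at e3
        rw [hs, hq, e3, zero_smul, add_zero, Function.comp_apply, hq]
      rw [e2] at e1
      have e4 : D (v ∘ st m r hm hr) ≠ 0 := by
        intro h
        obtain ⟨k, hk⟩ := (hv _ (st_inj m r hm hr)).1 h
        have : (Sum.inl k.castSucc : I m r) ∈ Ts m r k := (mem_Ts _ _ _ _).2 (Or.inl rfl)
        rw [← hk] at this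
        obtain ⟨x, -, hx⟩ := Finset.mem_image.1 this
        obtain ⟨q, hq⟩ := st_inr m r hm hr x
        rw [hq] at hx
        exact absurd hx (by simp)
      rcases lt_or_gt_of_ne e4 with h | h
      · rw [sign_neg h] at e1
        revert e1
        generalize SignType.sign c = z
        cases z <;> decide
      · rw [sign_pos h] at e1
        rw [one_mul] at e1
        exact e1.symm
    -- heights as a sequence
    let h : ℕ → ℝ := fun j => if hj : j < m + 2 then s (Sum.inl ⟨j, hj⟩) else 0
    have hh : ∀ k : Fin (m + 2), h k = s (Sum.inl k) := fun k => by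
      simp only [h]
      rw [dif_pos k.2]
    have hstep : ∀ k : Fin (m + 1), 0 < τ (k + 1) * (h (k + 1) - ρ k * h k) := by
      intro k
      have e1 := hdet (tk m r k)
      rw [hcpos, mul_one, hsgn _ γ k hγ' (cP_pos m τ ρ κ hκ hτ hτρ k k.2 (hκρ k k.2).1)] at e1
      have e2 : (fun x => φ (y (tk m r k x))) = X v E h 1 ∘ tk m r k := by
        funext x
        rw [hs]
        refine Fin.cases ?_ (fun x => ?_) x
        · rw [Function.comp_apply, tk_zero]
          simp only [X, Sum.elim_inl, one_mul]
          rw [hh]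
        · refine Fin.cases ?_ (fun x => ?_) x
          · have : (Fin.succ 0 : Fin (r + 1 + 1)) = 1 := rfl
            rw [this, Function.comp_apply, tk_one]
            simp only [X, Sum.elim_inl, one_mul]
            rw [hh]
          · rw [Function.comp_apply, tk_succ]
            have e3 := hsS (Sum.inr (k, x))
            simp only [S, Sum.elim_inr, Set.mem_singleton_iff] at e3
            rw [e3, zero_smul, add_zero]
            rfl
      rw [e2, hval, one_mul, sign_mul] at e1
      have e3 : SignType.sign (τ (k + 1) * α k) ≠ 0 := by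
        rw [sign_ne_zero]
        refine mul_ne_zero ?_ (hα0 k)
        intro h
        have := hτ (k + 1)
        rw [h] at this
        norm_num at this
      have e4 : SignType.sign (τ (k + 1) * (h (k + 1) - ρ k * h k)) = 1 := by
        revert e1 e3
        generalize SignType.sign (τ (k + 1) * (h (k + 1) - ρ k * h k)) = z
        generalize SignType.sign (τ (k + 1) * α k) = z'
        cases z <;> cases z' <;> decide
      exact sign_eq_one_iff.1 e4
    have hnonneg : ∀ j, j ≤ m + 1 → 0 ≤ τ j * h j := by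
      intro j
      induction j with
      | zero =>
        intro _
        have e1 := hsS (Sum.inl (0 : Fin (m + 2)))
        simp only [S, Sum.elim_inl, Fin.val_zero, if_true, Set.mem_singleton_iff] at e1
        have e2 := hh 0
        rw [e1] at e2
        have e3 : h 0 = 0 := e2
        rw [e3, mul_zero]
      | succ j ih =>
        intro hj
        have e1 := ih (by omega)
        have e2 := hstep ⟨j, by omega⟩
        simp only at e2
        have e3 : τ (j + 1) * (h (j + 1) - ρ j * h j) =
            τ (j + 1) * h (j + 1) - (τ (j + 1) * ρ j) * h j := by ring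
        rw [e3, hτρ] at e2
        have e4 : 0 ≤ |ρ j| * (τ j * h j) := mul_nonneg (abs_nonneg _) e1
        nlinarith
    have hlast := hnonneg (m + 1) le_rfl
    have e1 := hsS (Sum.inl (Fin.last (m + 1)))
    simp only [S, Sum.elim_inl, Fin.val_last] at e1
    rw [if_neg (by omega), if_pos trivial, Set.mem_singleton_iff] at e1
    have e2 := hh (Fin.last (m + 1))
    rw [Fin.val_last, e1] at e2
    rw [e2] at hlast
    have e3 : τ (m + 1) * -(γ * τ (m + 1)) = -γ * (τ (m + 1) * τ (m + 1)) := by ring
    rw [e3, hτ] at hlast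
    linarith

/-- For `d = n + 1 ≥ 3` there are critical families of any size. -/
theorem critical_families (n N : ℕ) (hn : 2 ≤ n) :
    ∃ (ι : Type) (_ : Fintype ι) (a : ι → Set (Fin (n + 1) → ℝ)) (p : ι → Fin n → ℝ),
      N ≤ Fintype.card ι ∧ IsFamily a ∧ GeneralPosition p ∧
      (∀ B : Finset ι, B ≠ Finset.univ → MetConsistently a p B) ∧
      ¬ MetConsistently a p Finset.univ := by
  obtain ⟨r, rfl⟩ : ∃ r, n = r + 1 := ⟨n - 1, by omega⟩
  obtain ⟨a, p, h1, h2, h3, h4⟩ := critical (N + 2) r (by omega) (by omega)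
  refine ⟨I (N + 2) r, inferInstance, a, p, ?_, h1, h2, h3, h4⟩
  simp only [I, Fintype.card_sum, Fintype.card_fin, Fintype.card_prod]
  omega

/-- For `d = n + 1 ≥ 3` no `h` has the defining property of `h(d)`. -/
theorem not_hellyNumber (n h : ℕ) (hn : 2 ≤ n) : ¬ HellyNumber n h := by
  intro hh
  obtain ⟨ι, hι, a, p, h0, h1, h2, h3, h4⟩ := critical_families n (h + 1) hn
  refine h4 (hh ι a p h1 h2 fun B hB => h3 B ?_)
  rintro rfl
  rw [Finset.card_univ] at hB
  omega

end Pool.Agent.Helper521.OrderedTransversals
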